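import Pool.Agent.VLF.Stmts

/-!
# VLF: row POW
-/

namespace Pool.Agent.VLF.H82

open Pool.Agent.VLF Finset

theorem z_pow {R : Type} [CommRing R] {p : ℕ} (hp : p.Prime) {z u : R}
    (hz : z ^ p = (p : R) * (z * u)) (a : ℕ) :
    z ^ (1 + (p - 1) * a) = (p : R) ^ a * (z * u ^ a) := by
  induction a with
  | zero => simp
  | succ a ih =>
    have h1 : 1 + (p - 1) * (a + 1) = (1 + (p - 1) * a) + (p - 1) := by ring
    have h2 : z * z ^ (p - 1) = z ^ p := by
      rw [← pow_succ']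
      congr 1
      have := hp.one_lt
      omega
    rw [h1, pow_add, ih]
    calc (p : R) ^ a * (z * u ^ a) * z ^ (p - 1)
        = (p : R) ^ a * u ^ a * (z * z ^ (p - 1)) := by ring
      _ = (p : R) ^ (a + 1) * (z * u ^ (a + 1)) := by
        rw [h2, hz]
        ring

theorem pow : PowStmt := by
  intro R _ p k hp hk y hy a
  obtain ⟨r, hr⟩ := exists_add_pow_prime_pow_eq hp (1 : R) y (k - 1)
  set z : R := (1 + y) ^ (p ^ (k - 1)) - 1 with hzdef
  have hzp : (1 + z) ^ p = 1 := by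
    have : 1 + z = (1 + y) ^ (p ^ (k - 1)) := by rw [hzdef]; ring
    rw [this, ← pow_mul, ← pow_succ]
    have hk1 : k - 1 + 1 = k := by omega
    rw [hk1]
    exact hy
  obtain ⟨s, hs⟩ := exists_add_pow_prime_eq hp (1 : R) z
  have hz : z ^ p = (p : R) * (z * (-s)) := by
    rw [hzp, one_pow] at hs
    linear_combination -hs
  have hy' : y ^ (p ^ (k - 1)) = (p : R) * (-(y * r)) + z := by
    rw [one_pow] at hr
    rw [hzdef, hr]
    ring
  have hdvd : (p : R) ^ a ∣ y ^ (p ^ (k - 1) * (1 + (p - 1) * a)) := by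
    rw [pow_mul, hy', add_pow]
    refine dvd_sum fun j hj => ?_
    rw [mem_range] at hj
    refine Dvd.dvd.mul_right ?_ _
    rw [mul_pow]
    by_cases hja : a ≤ j
    · refine Dvd.dvd.mul_right (Dvd.dvd.mul_right (pow_dvd_pow _ hja) _) _
    · push Not at hja
      obtain ⟨b, rfl⟩ : ∃ b, a = j + b := ⟨a - j, by omega⟩
      have hp1 : 1 ≤ p - 1 := by
        have := hp.one_lt
        omega
      obtain ⟨q, hq⟩ : ∃ q, p - 1 = q + 1 := ⟨p - 1 - 1, by omega⟩
      have he : 1 + (p - 1) * (j + b) - j = (1 + (p - 1) * b) + q * j := by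
        rw [hq]
        have : 1 + (q + 1) * (j + b) = ((1 + (q + 1) * b) + q * j) + j := by ring
        rw [this]
        omega
      rw [he, pow_add z, z_pow hp hz, pow_add (p : R) j b]
      exact ⟨(-(y * r)) ^ j * (z * (-s) ^ b) * z ^ (q * j), by ring⟩
  obtain ⟨c, hc⟩ := hdvd
  exact ⟨c, hc⟩

end Pool.Agent.VLF.H82
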